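import Pool.Agent.H80GE.Fac
import Pool.Agent.W761.Tail.Main

/-!
# Compact extensions of weakly mixing systems

Let `(Y, μ, S)` be a weakly mixing system, `K` a compact metrizable group which acts measurably on a
probability space `(W, θ)` and preserves `θ`, and `σ : Y → K` an arbitrary measurable map. The extension
`ext S σ (y, w) = (S y, σ(y) • w)` preserves `μ × θ`; it need not be weakly mixing or ergodic. For `W = K` these are
the compact group extensions, for `W = K / L` the isometric extensions.

The theorem: if the averages `(1/N) ∑_{n=1}^N f_1 (S^(a_1 n) y) ⋯ f_m (S^(a_m n) y)` converge almost everywhere for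
all bounded functions on `Y`, then this is true for the extension. In particular (with `a_j = j`) the averages
along `n, 2n, …, mn`, for example those of the problem, converge almost everywhere for all compact extensions of
all weakly mixing Gaussian systems.

Proof. For the group extension (`W = K`) and a point `y` of the base the averages of
`∏_j f_j (T^(a_j n) (y, k_j))`, as elements of `L²(K^m)`, are estimated with the inequality of van der Corput: their
correlations are products of functions of `S^(a_j n) y` on the base, where we have convergence at almost every point,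
with the limits given by the multiple weak mixing theorem. So the averages tend to zero in `L²(K^m)`, for almost
every `y`, if one of the `f_j` is orthogonal to the eigenfunctions. The convolutions of the `f_j` with functions
on `K`, acting from the right, commute with `T`, and their averages at the point `(y, k)` itself are controlled by the norm
in `L²(K^m)`. Eigenfunctions cause no problem, and the convolutions are dense.
-/

set_option autoImplicit false

open MeasureTheory Filter Topology

namespace Pool.Agent.Results.MP_9721b5_an.CompactExtensions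

/-- the extension `(y, w) ↦ (S y, σ(y) • w)` -/
def ext {Y K W : Type} [SMul K W] (S : Y → Y) (σ : Y → K) (z : Y × W) : Y × W :=
  (S z.1, σ z.1 • z.2)

/-- the multiple averages `(1/N) ∑_{n=1}^N ∏_j f_j (T^(a_j n) x)` -/
noncomputable def avg {X : Type} (T : X → X) {m : ℕ} (a : Fin m → ℕ) (f : Fin m → X → ℂ) (N : ℕ) (x : X) : ℂ :=
  (1 / (N : ℂ)) * ∑ n ∈ Finset.Icc 1 N, ∏ j, f j (T^[a j * n] x)

/-- almost everywhere convergence of the multiple averages of all bounded measurable functions -/
def Conv {X : Type} [MeasurableSpace X] (ν : Measure X) (T : X → X) {m : ℕ} (a : Fin m → ℕ) : Prop :=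
  ∀ f : Fin m → X → ℂ, (∀ j, Measurable (f j)) → (∃ C, ∀ j x, ‖f j x‖ ≤ C) →
    ∀ᵐ x ∂ν, ∃ L, Tendsto (fun N => avg T a f N x) atTop (𝓝 L)

theorem result {Y K W : Type} [MeasurableSpace Y] [Group K] [TopologicalSpace K] [IsTopologicalGroup K]
    [CompactSpace K] [T2Space K] [SecondCountableTopology K] [MeasurableSpace K] [BorelSpace K]
    [MeasurableSpace W] [MulAction K W] [MeasurableSMul₂ K W] (μ : Measure Y) [IsProbabilityMeasure μ]
    (θ : Measure W) [IsProbabilityMeasure θ] [SMulInvariantMeasure K W θ] (S : Y ≃ᵐ Y)
    (hS : MeasurePreserving S μ μ) (hwm : Ergodic (Prod.map S S) (μ.prod μ)) (σ : Y → K) (hσ : Measurable σ)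
    (m : ℕ) :
    (∀ a : Fin m → ℕ, Function.Injective a → (∀ j, 0 < a j) → Conv μ S a → Conv (μ.prod θ) (ext S σ) a) ∧
    (Pool.Agent.W761.Tail.IsGaussian μ S.toEquiv → Conv (μ.prod θ) (ext S σ) fun j : Fin m => (j : ℕ) + 1) := by
  have main : ∀ a : Fin m → ℕ, Function.Injective a → (∀ j, 0 < a j) → Conv μ S a →
      Conv (μ.prod θ) (ext S σ) a := by
    intro a hinj ha0 hY f hf hfb
    let ρ : Measure K := Measure.haarMeasure ⊤
    have hρ : IsProbabilityMeasure ρ := ⟨by
      have := Measure.haarMeasure_self (G := K) (K₀ := ⊤)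
      simpa using this⟩
    have hY' : ∀ g : Fin m → Y → ℂ, (∀ j, Measurable (g j)) → (∃ C, ∀ j y, ‖g j y‖ ≤ C) →
        ∀ᵐ y ∂μ, ∃ L, Tendsto (fun N => Pool.Agent.H80GE.AV S a g N y) atTop (𝓝 L) := by
      intro g hg hgb
      filter_upwards [hY g hg hgb] with y hy
      obtain ⟨L, hL⟩ := hy
      exact ⟨L, hL.congr fun N => Pool.Agent.H80GE.avg_eq S a g N y⟩
    have h1 := Pool.Agent.H80GE.conv_space μ ρ θ S.measurable hσ a (fun g hg hgb =>
      Pool.Agent.H80GE.wm_conv (ρ := ρ) S hS hwm hσ a hinj ha0 hY' Finset.univ g hg hgb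
        (fun j hj => absurd (Finset.mem_univ j) hj)) f hf hfb
    filter_upwards [h1] with x hx
    obtain ⟨L, hL⟩ := hx
    exact ⟨L, hL.congr fun N => (Pool.Agent.H80GE.avg_eq (ext S σ) a f N x).symm⟩
  refine ⟨main, fun hG => main _ (fun i j hij => Fin.ext (by simpa using hij)) (fun j => by omega) ?_⟩
  intro f hf hfb
  have h2 := hG.conv (f := f) (fun j => ⟨hf j, by
    obtain ⟨C, hC⟩ := hfb
    exact ⟨C, hC j⟩⟩)
  filter_upwards [h2] with y hy
  obtain ⟨L, hL⟩ := hy
  refine ⟨L, hL.congr fun N => ?_⟩
  rw [avg, Pool.Agent.H80GE.avg_eq]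
  rfl

end Pool.Agent.Results.MP_9721b5_an.CompactExtensions
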