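import Pool.Agent.H80IE.Tower2
import Pool.Agent.H80E.AlgQ

/-!
# Almost everywhere convergence of triple averages lifts to isometric and distal extensions

Let `a₁, a₂, a₃` be distinct positive integers, for example `1, 2, 3`. We prove that the almost everywhere convergence
of the averages `(1/N) ∑_{n=1}^N f₁ (T^(a₁ n) x) f₂ (T^(a₂ n) x) f₃ (T^(a₃ n) x)` for all bounded functions passes from any system to
all its isometric extensions, and so to all its distal extensions. Nothing else is assumed on the base or on the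
extension: no ergodicity, no mixing.

* (1) If the averages converge on `(Y, μ, S)`, they converge on `(Y × W, μ × θ, (y, w) ↦ (S y, σ(y) • w))`, where `W` is a
  space on which a compact metrizable group `K` acts, `θ` the image of the Haar measure of `K` under `k ↦ k • w₀`,
  and `σ : Y → K` is any measurable map. (For `W = K / H` these are all isometric extensions over an ergodic base.)
* (2) If the averages converge for the bounded functions measurable with respect to a σ-algebra `𝓐`, they converge for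
  the bounded functions measurable with respect to every σ-algebra in the smallest class which contains `𝓐` and
  is closed under isometric extensions and under directed suprema.
* (3) An unconditional consequence: by (2) the averages converge for all distal extensions of every affine map of a compact abelian group
  with Haar measure, (4) and of every Gaussian system (convergence on these bases is in the starting files).

Proof. Functions with vanishing third Host–Kra seminorm are negligible almost everywhere on isometric extensions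
of a system with convergence (van der Corput's inequality on the fibres, `Pool.Agent.H80GE`). We show that every bounded
function on an arbitrary system is a sum `s + w` where `w` has vanishing third seminorm and `s` belongs to an algebra `ZA` for
which the averages converge. Let `μ₂` be the relatively independent square of `μ` over the invariant sets. The function
`s` is in `ZA` if `(x, x') ↦ s(x)` is in the closure in `L¹(μ₂)` of the sums of the functions `k(x, x') g(x')` where the
sequences `n ↦ k(T^n x, T^n x')` are Besicovitch almost periodic. If `w` is orthogonal to `ZA`, then for each such `k` the function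
`x ↦ ∫ k(x, x') w(x') dμ_x(x')` is in `ZA` (average over `T^h x'`), so `w ⊗ w` is orthogonal to all `k` and its
second seminorm, for `T × T`, is zero: this is the third seminorm of `w`. For `s₁, s₂, s₃` in `ZA` the averages are, for independent
points `ω₁, ω₂, ω₃` of the fibre of `x`, approximated by the averages of `b(n) G(R^n ω)` with `R = T^a₁ × T^a₂ × T^a₃` and
an almost periodic sequence `b`, which converge by the theorem of Wiener and Wintner for almost periodic weights.
-/

set_option autoImplicit false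

open MeasureTheory Filter Topology Finset
open scoped ENNReal ComplexConjugate

namespace Pool.Agent.Results.MP_9721b5_an.DistalExtensions

/-- the extension `(y, w) ↦ (S y, σ(y) • w)` -/
def ext {Y K W : Type} [SMul K W] (S : Y → Y) (σ : Y → K) (z : Y × W) : Y × W :=
  (S z.1, σ z.1 • z.2)

/-- the multiple averages `(1/N) ∑_{n=1}^N ∏_j f_j (T^(a_j n) x)` -/
noncomputable def avg {X : Type} (T : X → X) {m : ℕ} (a : Fin m → ℕ) (f : Fin m → X → ℂ) (N : ℕ) (x : X) : ℂ :=
  (1 / (N : ℂ)) * ∑ n ∈ Finset.Icc 1 N, ∏ j, f j (T^[a j * n] x)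

/-- almost everywhere convergence of the multiple averages of all bounded functions which are measurable with respect
to the σ-algebra `𝓐` -/
def Conv {X : Type} {_ : MeasurableSpace X} (ν : Measure X) (T : X → X) {m : ℕ} (a : Fin m → ℕ)
    (𝓐 : MeasurableSpace X) : Prop :=
  ∀ f : Fin m → X → ℂ, (∀ j, Measurable[𝓐] (f j)) → (∃ C, ∀ j x, ‖f j x‖ ≤ C) →
    ∀ᵐ x ∂ν, ∃ L, Tendsto (fun N => avg T a f N x) atTop (𝓝 L)

/-- `IsoExt μ T 𝓐 𝓑`: the σ-algebra `𝓑` is (contained in) an isometric extension of (a part of) the σ-algebra `𝓐`. That is,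
there are a map `π` to a system `(Y, S)` and a map `τ` to a space `W` with an action of a compact metrizable group `K`,
with `π (T x) = S (π x)` and `τ (T x) = σ (π x) • τ x` almost everywhere, the distribution of `(π, τ)` is the product
of the one of `π` and of the image of Haar measure in an orbit in `W`; `π` is measurable with respect to `𝓐`
and `𝓑` is contained in the σ-algebra of `(π, τ)`, both up to null sets. -/
def IsoExt {X : Type} {_ : MeasurableSpace X} (μ : Measure X) (T : X → X) (𝓐 𝓑 : Set (Set X)) : Prop :=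
  ∃ (Y K W : Type) (_ : MeasurableSpace Y) (_ : StandardBorelSpace Y) (_ : Group K) (_ : TopologicalSpace K)
    (_ : IsTopologicalGroup K) (_ : CompactSpace K) (_ : T2Space K) (_ : SecondCountableTopology K)
    (_ : MeasurableSpace K) (_ : BorelSpace K) (_ : MeasurableSpace W) (_ : StandardBorelSpace W)
    (_ : MulAction K W) (_ : MeasurableSMul₂ K W) (ρ : Measure K) (_ : ρ.IsHaarMeasure)
    (_ : IsProbabilityMeasure ρ) (w₀ : W) (S : Y ≃ᵐ Y) (σ : Y → K) (π : X → Y) (τ : X → W),
    Measurable σ ∧ Measurable π ∧ Measurable τ ∧ (∀ᵐ x ∂μ, π (T x) = S (π x)) ∧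
    (∀ᵐ x ∂μ, τ (T x) = σ (π x) • τ x) ∧
    μ.map (fun x => (π x, τ x)) = (μ.map π).prod (ρ.map fun k => k • w₀) ∧
    (∀ D : Set Y, MeasurableSet D → ∃ A ∈ 𝓐, π ⁻¹' D =ᵐ[μ] A) ∧
    (∀ B ∈ 𝓑, ∃ C : Set (Y × W), MeasurableSet C ∧ B =ᵐ[μ] (fun x => (π x, τ x)) ⁻¹' C)

/-- `Distal μ T 𝓐 𝓑`: the σ-algebra `𝓑` is obtained from `𝓐` by (transfinitely many) isometric extensions and
suprema of directed families -/
inductive Distal {X : Type} {mX : MeasurableSpace X} (μ : Measure X) (T : X → X) (𝓐 : MeasurableSpace X) :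
    MeasurableSpace X → Prop
  | refl : Distal μ T 𝓐 𝓐
  | iso (𝓑 𝓒 : MeasurableSpace X) : Distal μ T 𝓐 𝓑 → 𝓒 ≤ mX →
      IsoExt μ T {s | MeasurableSet[𝓑] s} {s | MeasurableSet[𝓒] s} → Distal μ T 𝓐 𝓒
  | lim (F : Set (MeasurableSpace X)) : F.Nonempty → DirectedOn (· ≤ ·) F → (∀ 𝓑 ∈ F, Distal μ T 𝓐 𝓑) →
      Distal μ T 𝓐 (sSup F)

lemma conv_iff {X : Type} {mX : MeasurableSpace X} (ν : Measure X) (T : X → X) {m : ℕ} (a : Fin m → ℕ)
    (𝓐 : MeasurableSpace X) : Conv ν T a 𝓐 ↔ @Pool.Agent.H80IE.CvA X mX ν T m a 𝓐 := by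
  unfold Conv Pool.Agent.H80IE.CvA
  simp only [avg, Pool.Agent.H80GE.avg_eq]

theorem result (a : Fin 3 → ℕ) (hinj : Function.Injective a) (ha0 : ∀ j, 0 < a j) :
    (∀ (Y K W : Type) [mY : MeasurableSpace Y] [StandardBorelSpace Y] [Group K] [TopologicalSpace K]
      [IsTopologicalGroup K] [CompactSpace K] [T2Space K] [SecondCountableTopology K] [MeasurableSpace K]
      [BorelSpace K] [MeasurableSpace W] [StandardBorelSpace W] [MulAction K W] [MeasurableSMul₂ K W]
      (μ : Measure Y) [IsProbabilityMeasure μ] (ρ : Measure K) [ρ.IsHaarMeasure] [IsProbabilityMeasure ρ]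
      (w₀ : W) (S : Y ≃ᵐ Y) (_ : MeasurePreserving S μ μ) (σ : Y → K) (_ : Measurable σ),
      Conv μ S a mY → Conv (μ.prod (ρ.map fun k => k • w₀)) (ext S σ) a (inferInstanceAs (MeasurableSpace (Y × W)))) ∧
    (∀ (X : Type) [mX : MeasurableSpace X] (μ : Measure X) [IsProbabilityMeasure μ] (T : X → X)
      (_ : MeasurePreserving T μ μ) (𝓐 𝓑 : MeasurableSpace X), 𝓐 ≤ mX → Conv μ T a 𝓐 → Distal μ T 𝓐 𝓑 →
      Conv μ T a 𝓑) ∧
    (∀ (X G : Type) [MeasurableSpace X] (μ : Measure X) [IsProbabilityMeasure μ] (T : X → X)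
      (_ : MeasurePreserving T μ μ) [CommGroup G] [TopologicalSpace G] [IsTopologicalGroup G] [CompactSpace G]
      [T2Space G] [mG : MeasurableSpace G] [BorelSpace G] (R : Equiv.Perm G)
      (_ : ∃ (α : G →ₜ* G) (c : G), ∀ x, R x = α x * c) (p : X → G) (_ : Measurable p)
      (_ : (μ.map p).IsHaarMeasure) (_ : ∀ᵐ x ∂μ, p (T x) = R (p x)) (𝓑 : MeasurableSpace X),
      Distal μ T (mG.comap p) 𝓑 → Conv μ T a 𝓑) ∧
    (∀ (X Z : Type) [MeasurableSpace X] [mZ : MeasurableSpace Z] (μ : Measure X) [IsProbabilityMeasure μ] (T : X → X)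
      (_ : MeasurePreserving T μ μ) (R : Equiv.Perm Z) (p : X → Z) (_ : Measurable p)
      (_ : Pool.Agent.W761.Tail.IsGaussian (μ.map p) R) (_ : ∀ᵐ x ∂μ, p (T x) = R (p x)) (𝓑 : MeasurableSpace X),
      Distal μ T (mZ.comap p) 𝓑 → Conv μ T a 𝓑) := by
  have key : ∀ (X : Type) [mX : MeasurableSpace X] (μ : Measure X) [IsProbabilityMeasure μ] (T : X → X)
      (_ : MeasurePreserving T μ μ) (𝓐 𝓑 : MeasurableSpace X), 𝓐 ≤ mX → Conv μ T a 𝓐 → Distal μ T 𝓐 𝓑 →
      Conv μ T a 𝓑 := by
    intro X mX μ _ T hT 𝓐 𝓑 hA hc hd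
    suffices h : 𝓑 ≤ mX ∧ Conv μ T a 𝓑 from h.2
    induction hd with
    | refl => exact ⟨hA, hc⟩
    | iso 𝓑 𝓒 _ hC hiso ih =>
      refine ⟨hC, ?_⟩
      obtain ⟨Y, K, W, _, _, _, _, _, _, _, _, _, _, _, _, _, _, ρ, _, _, w₀, S, σ, π, τ, h1, h2, h3, h4, h5, h6,
        h7, h8⟩ := hiso
      rw [conv_iff] at ih ⊢
      exact @Pool.Agent.H80IE.cva_iso X 𝓒 𝓑 mX μ _ Y K W _ _ _ _ _ _ _ _ _ _ _ _ _ _ ρ _ _ w₀ S σ h1 π h2 τ h3 T hT
        h4 h5 h6 ih.1 h7 (fun B hB => ⟨hC B hB, h8 B hB⟩) a hinj ha0 ih.2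
    | lim F hne hdir _ ih =>
      refine ⟨sSup_le fun 𝓑 hB => (ih 𝓑 hB).1, ?_⟩
      rw [conv_iff]
      exact @Pool.Agent.H80IE.cva_sup X mX μ _ F hne hdir (fun 𝓑 hB => (ih 𝓑 hB).1) T hT 3 a
        fun 𝓑 hB => (conv_iff μ T a 𝓑).1 (ih 𝓑 hB).2
  refine ⟨?_, key, ?_, ?_⟩
  · intro Y K W _ _ _ _ _ _ _ _ _ _ _ _ _ _ μ _ ρ _ _ w₀ S hS σ hσ hc f hf hfb
    rw [conv_iff] at hc
    have h := Pool.Agent.H80IE.iso3 Pool.Agent.H80IE.zac (ρ := ρ) w₀ S hS hσ a hinj ha0 hc f hf hfb
    filter_upwards [h] with x hx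
    obtain ⟨L, hL⟩ := hx
    exact ⟨L, hL.congr fun N => (Pool.Agent.H80GE.avg_eq (ext S σ) a f N x).symm⟩
  · intro X G mX μ _ T hT _ _ _ _ _ mG _ R hR p hp hpH hpT
    have h1 : Conv μ T a (mG.comap p) := by
      rw [conv_iff]
      exact Pool.Agent.H80E.cva_alg hT hR hp hpH hpT a
    exact fun 𝓑 hd => @key X mX μ _ T hT (mG.comap p) 𝓑 hp.comap_le h1 hd
  · intro X Z mX mZ μ _ T hT R p hp hG hpT
    have h1 : Conv μ T a (mZ.comap p) := by
      rw [conv_iff]
      exact Pool.Agent.H80E.cva_gauss hT hp hG hpT a ha0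
    exact fun 𝓑 hd => @key X mX μ _ T hT (mZ.comap p) 𝓑 hp.comap_le h1 hd

end Pool.Agent.Results.MP_9721b5_an.DistalExtensions
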