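import Pool.Agent.H80GE.HKAbs

/-!
# The Host–Kra factor is characteristic almost everywhere on compact extensions

Let `(Y, μ, S)` be any system on which the averages `(1/N) ∑_{n=1}^N f_1 (S^(a_1 n) y) ⋯ f_m (S^(a_m n) y)` converge
almost everywhere for all bounded functions. Let `X = Y × W → Y` be an extension by a homogeneous space of a compact
metrizable group `K`, that is `T (y, w) = (S y, σ(y) • w)` with `σ : Y → K` measurable. These are, over an ergodic
base, all isometric extensions. We prove

* if one of `f_1, …, f_m` is a bounded function on `X` with Host–Kra seminorm of order `m` equal to zero, then the averages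
  on `X` converge to zero almost everywhere. So the Host–Kra factor of order `m - 1`, which is characteristic for
  the convergence in the mean, is characteristic for the convergence almost everywhere;
* hence if every bounded function on `X` is, up to an error small in `L¹`, the sum of a function with seminorm zero and
  a function of a class in which the averages converge almost everywhere, then we have convergence almost
  everywhere for all bounded functions on `X`. (By the theorem of Host and Kra and the one of Leibman such a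
  decomposition exists for every ergodic system, with functions on nilsystems for the class.)

Nothing is assumed about `X`, which need not be ergodic, and nothing about the mixing properties of `Y`.

Proof. We apply the inequality of van der Corput at a point `y` of the base to the averages of `∏_j f_j (T^(a_j n) (y, k_j))`, which are
elements of `L²(K^m)`. The correlations are products of functions of `S^(a_j n) y`, their averages converge for
almost every `y` by assumption, and the limits, integrated over `y`, are again averages of correlations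
on `X`, which are estimated with the Host–Kra seminorms, using van der Corput again. So the
averages tend to zero in `L²(K^m)` for almost every `y`. We come back from `L²(K^m)` to a point `(y, k)` by convolution of the
`f_j` from the right with functions on `K`. This commutes with `T`.
-/

set_option autoImplicit false

open MeasureTheory Filter Topology Finset
open scoped ENNReal ComplexConjugate

namespace Pool.Agent.Results.MP_9721b5_an.HostKraCharacteristic

/-- the extension `(y, w) ↦ (S y, σ(y) • w)` -/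
def ext {Y K W : Type} [SMul K W] (S : Y → Y) (σ : Y → K) (z : Y × W) : Y × W :=
  (S z.1, σ z.1 • z.2)

/-- the multiple averages `(1/N) ∑_{n=1}^N ∏_j f_j (T^(a_j n) x)` -/
noncomputable def avg {X : Type} (T : X → X) {m : ℕ} (a : Fin m → ℕ) (f : Fin m → X → ℂ) (N : ℕ) (x : X) : ℂ :=
  (1 / (N : ℂ)) * ∑ n ∈ Finset.Icc 1 N, ∏ j, f j (T^[a j * n] x)

/-- almost everywhere convergence of the multiple averages of all bounded measurable functions -/
def Conv {X : Type} [MeasurableSpace X] (ν : Measure X) (T : X → X) {m : ℕ} (a : Fin m → ℕ) : Prop :=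
  ∀ f : Fin m → X → ℂ, (∀ j, Measurable (f j)) → (∃ C, ∀ j x, ‖f j x‖ ≤ C) →
    ∀ᵐ x ∂ν, ∃ L, Tendsto (fun N => avg T a f N x) atTop (𝓝 L)

/-- `hk ν T k f` is the power `2 ^ (k + 1)` of the seminorm of Host and Kra of order `k + 1` of `f`, given by the usual
recursion: `|||f|||_1 ^ 2 = lim_N ‖(1/N) ∑_{n<N} f ∘ T^n‖²` (norm of `L²`) and
`|||f|||_{k+1} ^ (2^(k+1)) = lim_H (1/H) ∑_{h<H} |||f ∘ T^h · conj f|||_k ^ (2^k)` -/
noncomputable def hk {X : Type} [MeasurableSpace X] (ν : Measure X) (T : X → X) : ℕ → (X → ℂ) → ℝ≥0∞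
  | 0, f => limsup (fun N : ℕ => ∫⁻ x, ‖(1 / (N : ℂ)) * ∑ n ∈ range N, f (T^[n] x)‖ₑ ^ 2 ∂ν) atTop
  | k + 1, f => limsup (fun H : ℕ => (H : ℝ≥0∞)⁻¹ * ∑ h ∈ range H,
      hk ν T k (fun x => f (T^[h] x) * conj (f x))) atTop

lemma hk_eq {X : Type} [MeasurableSpace X] (ν : Measure X) (T : X → X) (k : ℕ) (f : X → ℂ) :
    hk ν T k f = Pool.Agent.H80GE.box ν T 1 k f := by
  induction k generalizing f with
  | zero =>
    unfold hk Pool.Agent.H80GE.box
    simp only [one_mul, one_div]
  | succ k ih =>
    unfold hk Pool.Agent.H80GE.box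
    simp only [ih]

theorem result {Y K W : Type} [MeasurableSpace Y] [Group K] [TopologicalSpace K] [IsTopologicalGroup K]
    [CompactSpace K] [T2Space K] [SecondCountableTopology K] [MeasurableSpace K] [BorelSpace K]
    [MeasurableSpace W] [MulAction K W] [MeasurableSMul₂ K W] (μ : Measure Y) [IsProbabilityMeasure μ]
    (ρ : Measure K) [ρ.IsHaarMeasure] [IsProbabilityMeasure ρ] (w₀ : W) (θ : Measure W)
    (hθ : θ = ρ.map fun k => k • w₀) (S : Y ≃ᵐ Y) (hS : MeasurePreserving S μ μ) (σ : Y → K) (hσ : Measurable σ)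
    (m : ℕ) (hm : 2 ≤ m) (a : Fin m → ℕ) (hinj : Function.Injective a) (ha0 : ∀ j, 0 < a j) (hY : Conv μ S a) :
    (∀ f : Fin m → Y × W → ℂ, (∀ j, Measurable (f j)) → (∃ C, ∀ j x, ‖f j x‖ ≤ C) →
      (∃ j, hk (μ.prod θ) (ext S σ) (m - 1) (f j) = 0) →
      ∀ᵐ x ∂(μ.prod θ), Tendsto (fun N => avg (ext S σ) a f N x) atTop (𝓝 0)) ∧
    (∀ (A : Set (Y × W → ℂ)) (C : ℝ), (∀ s ∈ A, Measurable s ∧ ∀ x, ‖s x‖ ≤ C) →
      (∀ s : Fin m → Y × W → ℂ, (∀ j, s j ∈ A) →
        ∀ᵐ x ∂(μ.prod θ), ∃ L, Tendsto (fun N => avg (ext S σ) a s N x) atTop (𝓝 L)) →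
      (∀ f : Y × W → ℂ, Measurable f → (∀ x, ‖f x‖ ≤ 1) → ∀ ε : ℝ, 0 < ε →
        ∃ s ∈ A, ∃ w : Y × W → ℂ, Measurable w ∧ (∀ x, ‖w x‖ ≤ C) ∧ hk (μ.prod θ) (ext S σ) (m - 1) w = 0 ∧
          ∫ x, ‖f x - (s x + w x)‖ ∂(μ.prod θ) ≤ ε) →
      Conv (μ.prod θ) (ext S σ) a) := by
  subst hθ
  have hY' : ∀ g : Fin m → Y → ℂ, (∀ j, Measurable (g j)) → (∃ C, ∀ j y, ‖g j y‖ ≤ C) →
      ∀ᵐ y ∂μ, ∃ L, Tendsto (fun N => Pool.Agent.H80GE.AV S a g N y) atTop (𝓝 L) := by
    intro g hg hgb
    filter_upwards [hY g hg hgb] with y hy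
    obtain ⟨L, hL⟩ := hy
    exact ⟨L, hL.congr fun N => Pool.Agent.H80GE.avg_eq S a g N y⟩
  have hπm : Measurable (fun k : K => k • w₀) := measurable_id.smul_const w₀
  have hρ' : IsProbabilityMeasure (ρ.map fun k : K => k • w₀) :=
    Measure.isProbabilityMeasure_map hπm.aemeasurable
  have hinv : SMulInvariantMeasure K W (ρ.map fun k : K => k • w₀) := ⟨by
    intro c s hs
    rw [Measure.map_apply hπm hs, Measure.map_apply hπm ((measurable_const_smul c) hs)]
    have e : (fun k : K => k • w₀) ⁻¹' ((fun x => c • x) ⁻¹' s) = (fun k => c * k) ⁻¹' ((fun k : K => k • w₀) ⁻¹' s) := by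
      ext k
      simp only [Set.mem_preimage, mul_smul]
    rw [e, measure_preimage_mul]⟩
  have hzero : ∀ f : Fin m → Y × W → ℂ, (∀ j, Measurable (f j)) → (∃ C, ∀ j x, ‖f j x‖ ≤ C) →
      (∃ j, hk (μ.prod (ρ.map fun k => k • w₀)) (ext S σ) (m - 1) (f j) = 0) →
      ∀ᵐ x ∂(μ.prod (ρ.map fun k => k • w₀)),
        Tendsto (fun N => Pool.Agent.H80GE.AV (ext S σ) a f N x) atTop (𝓝 0) := by
    intro f hf hfb hj
    obtain ⟨j, hj⟩ := hj
    rw [hk_eq] at hj
    exact Pool.Agent.H80GE.iso_zero S hS hσ w₀ hm a hinj ha0 hY' f hf hfb ⟨j, hj⟩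
  refine ⟨?_, ?_⟩
  · intro f hf hfb hj
    filter_upwards [hzero f hf hfb hj] with x hx
    exact hx.congr fun N => (Pool.Agent.H80GE.avg_eq (ext S σ) a f N x).symm
  · intro A C hA hconv hdec f hf hfb
    have h1 := Pool.Agent.H80GE.abs_closure (μ.prod (ρ.map fun k => k • w₀)) (T := ext S σ)
      (Pool.Agent.H80GE.mp_exs μ _ hS hσ) a
      (fun g => hk (μ.prod (ρ.map fun k => k • w₀)) (ext S σ) (m - 1) g = 0) hzero A C hA (by
        intro s hs
        filter_upwards [hconv s hs] with x hx
        obtain ⟨L, hL⟩ := hx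
        exact ⟨L, hL.congr fun N => Pool.Agent.H80GE.avg_eq (ext S σ) a s N x⟩) hdec f hf hfb
    filter_upwards [h1] with x hx
    obtain ⟨L, hL⟩ := hx
    exact ⟨L, hL.congr fun N => (Pool.Agent.H80GE.avg_eq (ext S σ) a f N x).symm⟩

end Pool.Agent.Results.MP_9721b5_an.HostKraCharacteristic
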