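import Pool.Agent.H4K.Roots
import Pool.Agent.TH739.Pois.Joint

/-!
# Almost everywhere convergence of the cubic averages along mixed towers of extensions

For a measure preserving map `T` of a probability space `(X, μ)` consider the averages
`(1/N) ∑_{n=1}^N f₀ (T^n x) f₁ (T^(2n) x) f₂ (T^(3n) x)`. Call a σ-algebra of measurable sets *convergent* if these averages
converge almost everywhere for all bounded functions which are measurable with respect to it. We prove that the class of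
the convergent σ-algebras is closed under

* sub-σ-algebras, up to null sets,
* isometric extensions,
* K-extensions: `𝓒` is a K-extension of `𝓑` if `𝓒` has an invariant exhaustive sub-σ-algebra whose tail is contained in
  `𝓑`, up to null sets (for example `𝓒` is the join of `𝓑` and of an independent factor which is a K-system, or an exact
  endomorphism),
* skew products which are Poisson extensions with summable overlaps, or whose fibres are mixing of order `6` with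
  log-summable rates,
* suprema of directed families.

The steps may be repeated and mixed in any order, transfinitely often, and nothing is
assumed on the base except convergence: no ergodicity, no mixing. Hence the averages converge for all
`f_j ∈ L^∞` on all the systems which are obtained by such steps from the one-point system, or from a factor of the product of
a Gaussian system and of a Poisson suspension with logarithmic rates (*tame* systems). It is enough that for almost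
every ergodic component some power of `T` is of this kind; the towers may be different on the components.

The step of the isometric extensions and the suprema are the theorem `DistalExtensions` of this problem; the other
steps are derived from the starting library (`Pool.Agent.W761.Tail`, `Pool.Agent.TH739.PS`, `Pool.Agent.TH290.RM`: there the
base must be the last member of the tower, as these theorems do not go beyond one step). The point is that all
steps are brought to one form, for σ-algebras on a fixed space, so that they can be iterated.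
-/

set_option autoImplicit false

open MeasureTheory ProbabilityTheory Filter Topology symmDiff
open scoped ENNReal

namespace Pool.Agent.Results.MP_9721b5_an.MixedTowers

open Pool.Agent.W761.Tail (IsGaussian)
open Pool.Agent.TH739.Poi (IsPoisson HasRate)
open Pool.Agent.TH739.PS (IsPoissonExtension SummableOverlaps)
open Pool.Agent.TH290.RM (IsMixingExtension)

/-- the cubic averages `(1/N) ∑_{n=1}^N f₀ (T^n x) f₁ (T^(2n) x) f₂ (T^(3n) x)` -/
noncomputable def avg {X : Type} (T : X → X) (f : Fin 3 → X → ℂ) (N : ℕ) (x : X) : ℂ :=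
  (1 / (N : ℂ)) * ∑ n ∈ Finset.Icc 1 N, f 0 (T^[n] x) * f 1 (T^[2 * n] x) * f 2 (T^[3 * n] x)

/-- almost everywhere convergence of the cubic averages of all bounded functions which are measurable with respect to
the σ-algebra `𝓐` -/
def Conv {X : Type} {_ : MeasurableSpace X} (μ : Measure X) (T : X → X) (𝓐 : MeasurableSpace X) : Prop :=
  ∀ f : Fin 3 → X → ℂ, (∀ j, Measurable[𝓐] (f j)) → (∃ C, ∀ j x, ‖f j x‖ ≤ C) →
    ∀ᵐ x ∂μ, ∃ L, Tendsto (fun N => avg T f N x) atTop (𝓝 L)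

/-- `IsoExt μ T 𝓑 𝓒`: the σ-algebra `𝓒` is (contained in) an isometric extension of (a part of) the σ-algebra `𝓑`. That is,
there are a map `π` to a system `(Y, S)` and a map `τ` to a space `W` with an action of a compact metrizable group `K`,
with `π (T x) = S (π x)` and `τ (T x) = σ (π x) • τ x` almost everywhere, the distribution of `(π, τ)` is the product
of the one of `π` and of the image of Haar measure in an orbit in `W`; `π` is measurable with respect to `𝓑`
and `𝓒` is contained in the σ-algebra of `(π, τ)`, both up to null sets. -/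
def IsoExt {X : Type} {_ : MeasurableSpace X} (μ : Measure X) (T : X → X) (𝓑 𝓒 : Set (Set X)) : Prop :=
  ∃ (Y K W : Type) (_ : MeasurableSpace Y) (_ : StandardBorelSpace Y) (_ : Group K) (_ : TopologicalSpace K)
    (_ : IsTopologicalGroup K) (_ : CompactSpace K) (_ : T2Space K) (_ : SecondCountableTopology K)
    (_ : MeasurableSpace K) (_ : BorelSpace K) (_ : MeasurableSpace W) (_ : StandardBorelSpace W)
    (_ : MulAction K W) (_ : MeasurableSMul₂ K W) (ρ : Measure K) (_ : ρ.IsHaarMeasure)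
    (_ : IsProbabilityMeasure ρ) (w₀ : W) (S : Y ≃ᵐ Y) (σ : Y → K) (π : X → Y) (τ : X → W),
    Measurable σ ∧ Measurable π ∧ Measurable τ ∧ (∀ᵐ x ∂μ, π (T x) = S (π x)) ∧
    (∀ᵐ x ∂μ, τ (T x) = σ (π x) • τ x) ∧
    μ.map (fun x => (π x, τ x)) = (μ.map π).prod (ρ.map fun k => k • w₀) ∧
    (∀ D : Set Y, MeasurableSet D → ∃ B ∈ 𝓑, π ⁻¹' D =ᵐ[μ] B) ∧
    (∀ B ∈ 𝓒, ∃ C : Set (Y × W), MeasurableSet C ∧ B =ᵐ[μ] (fun x => (π x, τ x)) ⁻¹' C)

/-- `KExt μ T 𝓑 𝓒`: the σ-algebra `𝓒` is invariant, and it has an invariant sub-σ-algebra `𝓔` which is exhaustive (the sets of `𝓒`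
are approximated by those of `𝓔`, after a shift) and whose tail, the set of the `B ∈ 𝓒` which are equal to sets `T^(-k) E`, `E ∈ 𝓔`, for
all `k`, is contained in `𝓑`; all this up to null sets. -/
def KExt {X : Type} {_ : MeasurableSpace X} (μ : Measure X) (T : X → X) (𝓑 𝓒 : Set (Set X)) : Prop :=
  (∀ B ∈ 𝓒, T ⁻¹' B ∈ 𝓒) ∧ ∃ 𝓔 : MeasurableSpace X,
    (∀ E, MeasurableSet[𝓔] E → E ∈ 𝓒 ∧ MeasurableSet[𝓔] (T ⁻¹' E)) ∧
    (∀ B ∈ 𝓒, ∀ ε : ℝ, 0 < ε → ∃ (k : ℕ) (E : Set X), MeasurableSet[𝓔] E ∧ μ.real ((T^[k] ⁻¹' B) ∆ E) ≤ ε) ∧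
    ∀ B ∈ 𝓒, (∀ k : ℕ, ∃ E, MeasurableSet[𝓔] E ∧ B =ᵐ[μ] T^[k] ⁻¹' E) → ∃ D ∈ 𝓑, B =ᵐ[μ] D

/-- `SkewExt μ T 𝓑 𝓒`: there are a map `π` to a system `(Y, S)` and a map `τ` to a probability space `(W, ν)`, with
`π (T x) = S (π x)` and `τ (T x) = ψ (π x) (τ x)` almost everywhere, `τ` is independent of `π` with distribution `ν`; `π` is
measurable with respect to `𝓑` and `𝓒` is contained in the σ-algebra of `(π, τ)`, both up to null sets; and
`(y, w) ↦ (S y, ψ y w)` is a mixing extension of order `6`, or a Poisson extension with summable overlaps (definitions of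
the starting library). -/
def SkewExt {X : Type} {_ : MeasurableSpace X} (μ : Measure X) (T : X → X) (𝓑 𝓒 : Set (Set X)) : Prop :=
  ∃ (Y W : Type) (_ : MeasurableSpace Y) (_ : MeasurableSpace W) (ν : Measure W) (_ : IsProbabilityMeasure ν)
    (S : Y → Y) (ψ : Y → W → W) (π : X → Y) (τ : X → W),
    Measurable π ∧ Measurable τ ∧ (∀ᵐ x ∂μ, π (T x) = S (π x)) ∧ (∀ᵐ x ∂μ, τ (T x) = ψ (π x) (τ x)) ∧
    μ.map (fun x => (π x, τ x)) = (μ.map π).prod ν ∧
    (∀ D : Set Y, MeasurableSet D → ∃ B ∈ 𝓑, π ⁻¹' D =ᵐ[μ] B) ∧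
    (∀ B ∈ 𝓒, ∃ C : Set (Y × W), MeasurableSet C ∧ B =ᵐ[μ] (fun x => (π x, τ x)) ⁻¹' C) ∧
    (IsMixingExtension 6 (μ.map π) S ν ψ ∨
      ∃ (V : Type) (_ : MeasurableSpace V) (κ : Measure V) (_ : SFinite κ) (θ : Y → V → V),
        IsPoissonExtension (μ.map π) S κ θ ν ψ ∧ SummableOverlaps (μ.map π) S κ θ)

/-- `Tower μ T 𝓐 𝓑`: the σ-algebra `𝓑` is obtained from `𝓐` by (transfinitely many) steps of the five kinds -/
inductive Tower {X : Type} {mX : MeasurableSpace X} (μ : Measure X) (T : X → X) (𝓐 : MeasurableSpace X) :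
    MeasurableSpace X → Prop
  | refl : Tower μ T 𝓐 𝓐
  | sub (𝓑 𝓒 : MeasurableSpace X) : Tower μ T 𝓐 𝓑 → 𝓒 ≤ mX →
      (∀ B, MeasurableSet[𝓒] B → ∃ D, MeasurableSet[𝓑] D ∧ B =ᵐ[μ] D) → Tower μ T 𝓐 𝓒
  | iso (𝓑 𝓒 : MeasurableSpace X) : Tower μ T 𝓐 𝓑 → 𝓒 ≤ mX →
      IsoExt μ T {s | MeasurableSet[𝓑] s} {s | MeasurableSet[𝓒] s} → Tower μ T 𝓐 𝓒
  | mix (𝓑 𝓒 : MeasurableSpace X) : Tower μ T 𝓐 𝓑 → 𝓒 ≤ mX →
      KExt μ T {s | MeasurableSet[𝓑] s} {s | MeasurableSet[𝓒] s} → Tower μ T 𝓐 𝓒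
  | skew (𝓑 𝓒 : MeasurableSpace X) : Tower μ T 𝓐 𝓑 → 𝓒 ≤ mX →
      SkewExt μ T {s | MeasurableSet[𝓑] s} {s | MeasurableSet[𝓒] s} → Tower μ T 𝓐 𝓒
  | lim (F : Set (MeasurableSpace X)) : F.Nonempty → DirectedOn (· ≤ ·) F → (∀ 𝓑 ∈ F, Tower μ T 𝓐 𝓑) →
      Tower μ T 𝓐 (sSup F)

/-- `GPFactor μ T φ`: the map `φ` to the system `(Z, R)` is a factor map, and `(Z, R)`, with the image of `μ`, is also a factor of
the product of a Gaussian system and a Poisson suspension with logarithmic rates. -/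
def GPFactor {X Z : Type} {_ : MeasurableSpace X} [MeasurableSpace Z] (μ : Measure X) (T : X → X) (φ : X → Z) : Prop :=
  Measurable φ ∧ ∃ R : Z → Z, Measurable R ∧ (∀ᵐ x ∂μ, φ (T x) = R (φ x)) ∧
    ∃ (Y₁ Y₂ V : Type) (_ : MeasurableSpace Y₁) (_ : MeasurableSpace Y₂) (_ : MeasurableSpace V) (_ : Nonempty V)
      (ν₁ : Measure Y₁) (_ : IsProbabilityMeasure ν₁) (ν₂ : Measure Y₂) (_ : IsProbabilityMeasure ν₂)
      (κ : Measure V) (_ : SFinite κ) (S₁ : Equiv.Perm Y₁) (S₂ : Y₂ → Y₂) (Q : V → V) (π : Y₁ × Y₂ → Z),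
      IsGaussian ν₁ S₁ ∧ IsPoisson κ Q ν₂ S₂ ∧ HasRate κ Q ∧ MeasurePreserving π (ν₁.prod ν₂) (μ.map φ) ∧
      ∀ᵐ y ∂(ν₁.prod ν₂), π (S₁ y.1, S₂ y.2) = R (π y)

/-- The σ-algebra of all measurable sets is obtained by a mixed tower from the trivial σ-algebra, or from a factor of the
product of a Gaussian system and a Poisson suspension. -/
def Tame {X : Type} {mX : MeasurableSpace X} (μ : Measure X) (T : X → X) : Prop :=
  Tower μ T ⊥ mX ∨ ∃ (Z : Type) (mZ : MeasurableSpace Z) (φ : X → Z), GPFactor μ T φ ∧ Tower μ T (mZ.comap φ) mX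

section proof

open Pool.Agent.H4K Pool.Agent.H80IE Pool.Agent.H80GE
open Pool.Agent.W761.Tail (Cvg Cvg_congr Cvg_factor)
open Pool.Agent.W761.Gauss (BM BM_of_memLp)

lemma avg_eq' {X : Type} (T : X → X) (f : Fin 3 → X → ℂ) (N : ℕ) (x : X) :
    avg T f N x = (N : ℂ)⁻¹ * ∑ n ∈ Finset.Icc 1 N, ∏ j : Fin 3, f j (T^[((j : ℕ) + 1) * n] x) := by
  unfold avg
  rw [one_div]
  congr 1
  refine Finset.sum_congr rfl fun n _ => ?_
  rw [Fin.prod_univ_three]
  simp

lemma cvg_iff {X : Type} {mX : MeasurableSpace X} (μ : Measure X) (T : X → X) (f : Fin 3 → X → ℂ) :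
    Cvg μ T f ↔ ∀ᵐ x ∂μ, ∃ L, Tendsto (fun N => avg T f N x) atTop (𝓝 L) := by
  unfold Cvg
  refine eventually_congr (Eventually.of_forall fun x => ?_)
  have h : (Pool.Agent.W761.Tail.A fun n => Pool.Agent.W761.Tail.term T f n x) = fun N => avg T f N x := by
    funext N
    rw [A_eq, avg_eq']
  rw [h]

lemma conv_iff {X : Type} {mX : MeasurableSpace X} (μ : Measure X) (T : X → X) (𝓐 : MeasurableSpace X) :
    Conv μ T 𝓐 ↔ CvM μ T 3 𝓐 := by
  constructor
  · intro h f hf hfb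
    choose C hC using hfb
    rw [cvg_iff]
    exact h f hf ⟨∑ j, |C j|, fun j x => ((hC j x).trans (le_abs_self _)).trans
      (Finset.single_le_sum (f := fun j => |C j|) (fun _ _ => abs_nonneg _) (Finset.mem_univ j))⟩
  · intro h f hf hfb
    obtain ⟨C, hC⟩ := hfb
    rw [← cvg_iff]
    exact h f hf fun j => ⟨C, hC j⟩

lemma conv_iff' {X : Type} {mX : MeasurableSpace X} (μ : Measure X) (T : X → X) (𝓐 : MeasurableSpace X) :
    Conv μ T 𝓐 ↔ @CvA X mX μ T 3 (fun j : Fin 3 => (j : ℕ) + 1) 𝓐 := by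
  unfold Conv CvA
  have h : ∀ (f : Fin 3 → X → ℂ) (N : ℕ) (x : X), AV T (fun j : Fin 3 => (j : ℕ) + 1) f N x = avg T f N x := by
    intro f N x
    rw [← Pool.Agent.H80GE.avg_eq, avg_eq', one_div]
  simp only [h]

/-- the step of the K-extensions -/
theorem mix_conv {X : Type} {𝓑 𝓒 : MeasurableSpace X} [mX : MeasurableSpace X] {μ : Measure X} [IsProbabilityMeasure μ]
    {T : X → X} (hT : MeasurePreserving T μ μ) (h𝓑 : 𝓑 ≤ mX) (h𝓒 : 𝓒 ≤ mX)
    (h : KExt μ T {s | MeasurableSet[𝓑] s} {s | MeasurableSet[𝓒] s}) (hc : CvM μ T 3 𝓑) : CvM μ T 3 𝓒 := by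
  obtain ⟨h1, 𝓔, h2, h3, h4⟩ := h
  exact @mix_step X 𝓑 𝓒 𝓔 mX μ _ T hT h𝓑 h𝓒 h1 (fun E hE => (h2 E hE).1) (fun E hE => (h2 E hE).2) h3 h4 3 hc

/-- the step of the skew products -/
theorem skew_conv {X : Type} {𝓑 𝓒 : MeasurableSpace X} [mX : MeasurableSpace X] {μ : Measure X} [IsProbabilityMeasure μ]
    {T : X → X} (hT : MeasurePreserving T μ μ) (h𝓑 : 𝓑 ≤ mX) (h𝓒 : 𝓒 ≤ mX)
    (hs : SkewExt μ T {s | MeasurableSet[𝓑] s} {s | MeasurableSet[𝓒] s}) (hc : CvM μ T 3 𝓑) : CvM μ T 3 𝓒 := by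
  obtain ⟨Y, W, _, _, ν, _, S, ψ, π, τ, h1, h2, h3, h4, h5, h6, h7, h8⟩ := hs
  have hν : IsProbabilityMeasure (μ.map π) := Measure.isProbabilityMeasure_map h1.aemeasurable
  rcases h8 with h | ⟨V, _, κ, _, θ, h, ho⟩
  · exact skew_step hT h𝓑 h𝓒 h1 h2 h3 h4 h5 h.base.measurable h.map h6 h7
      (fun hb g hg => h.cvg (by norm_num) hb hg) hc
  · exact skew_step hT h𝓑 h𝓒 h1 h2 h3 h4 h5 h.base.measurable h.map h6 h7
      (fun hb g hg => h.cvg ho hb hg) hc

/-- the class of the convergent σ-algebras is closed under the steps -/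
theorem tower {X : Type} {mX : MeasurableSpace X} (μ : Measure X) [IsProbabilityMeasure μ] (T : X → X)
    (hT : MeasurePreserving T μ μ) (𝓐 𝓑 : MeasurableSpace X) (hA : 𝓐 ≤ mX) (hc : Conv μ T 𝓐)
    (hd : Tower μ T 𝓐 𝓑) : 𝓑 ≤ mX ∧ Conv μ T 𝓑 := by
  induction hd with
  | refl => exact ⟨hA, hc⟩
  | sub 𝓑 𝓒 _ hC hsub ih =>
    refine ⟨hC, ?_⟩
    rw [conv_iff] at ih ⊢
    exact @null_step X 𝓑 𝓒 mX μ _ T hT ih.1 hC hsub 3 ih.2
  | iso 𝓑 𝓒 _ hC hiso ih =>
    refine ⟨hC, ?_⟩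
    obtain ⟨Y, K, W, _, _, _, _, _, _, _, _, _, _, _, _, _, _, ρ, _, _, w₀, S, σ, π, τ, h1, h2, h3, h4, h5, h6,
      h7, h8⟩ := hiso
    rw [conv_iff'] at ih ⊢
    exact @Pool.Agent.H80IE.cva_iso X 𝓒 𝓑 mX μ _ Y K W _ _ _ _ _ _ _ _ _ _ _ _ _ _ ρ _ _ w₀ S σ h1 π h2 τ h3 T hT
      h4 h5 h6 ih.1 h7 (fun B hB => ⟨hC B hB, h8 B hB⟩) _ (fun i j hij => Fin.ext (Nat.succ_injective hij))
      (fun j => Nat.succ_pos _) ih.2
  | mix 𝓑 𝓒 _ hC hmix ih =>
    refine ⟨hC, ?_⟩
    rw [conv_iff] at ih ⊢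
    exact @mix_conv X 𝓑 𝓒 mX μ _ T hT ih.1 hC hmix ih.2
  | skew 𝓑 𝓒 _ hC hskew ih =>
    refine ⟨hC, ?_⟩
    rw [conv_iff] at ih ⊢
    exact @skew_conv X 𝓑 𝓒 mX μ _ T hT ih.1 hC hskew ih.2
  | lim F hne hdir _ ih =>
    refine ⟨sSup_le fun 𝓑 hB => (ih 𝓑 hB).1, ?_⟩
    rw [conv_iff']
    exact @Pool.Agent.H80IE.cva_sup X mX μ _ F hne hdir (fun 𝓑 hB => (ih 𝓑 hB).1) T hT 3 _
      fun 𝓑 hB => (conv_iff' μ T 𝓑).1 (ih 𝓑 hB).2

/-- the unconditional base -/
theorem gp_conv {X Z : Type} {mX : MeasurableSpace X} [MeasurableSpace Z] (μ : Measure X) [IsProbabilityMeasure μ]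
    (T : X → X) (hT : MeasurePreserving T μ μ) (φ : X → Z) (h : GPFactor μ T φ) :
    Conv μ T (MeasurableSpace.comap φ inferInstance) := by
  obtain ⟨hφ, R, hR, hφT, Y₁, Y₂, V, _, _, _, _, ν₁, _, ν₂, _, κ, _, S₁, S₂, Q, π, h1, h2, h3, h4, h5⟩ := h
  have hmφ : MeasurePreserving φ μ (μ.map φ) := ⟨hφ, rfl⟩
  rw [conv_iff]
  intro f hf hfb
  choose C hC using hfb
  have h9 : ∀ j, ∃ g : Z → ℂ, BM g ∧ f j = g ∘ φ := by
    intro j
    obtain ⟨w, hw, e⟩ := (hf j).stronglyMeasurable.exists_eq_measurable_comp (mY := inferInstance)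
    refine ⟨fun z => if ‖w z‖ ≤ C j then w z else 0,
      ⟨Pool.Agent.W761.Tail.trunc_meas hw.measurable (C j), |C j|, fun z => ?_⟩, ?_⟩
    · show ‖if ‖w z‖ ≤ C j then w z else 0‖ ≤ |C j|
      split_ifs with h
      · exact h.trans (le_abs_self _)
      · simp
    · funext x
      have hx := hC j x
      rw [e, Function.comp_apply] at hx
      rw [e, Function.comp_apply, Function.comp_apply, if_pos hx]
  choose g hg hfg using h9
  have h10 : Cvg (ν₁.prod ν₂) (Prod.map S₁ S₂) (fun j => g j ∘ π) :=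
    Pool.Agent.TH739.Poi.conv_prod h1 h2 (Or.inl h3) fun j => by
      obtain ⟨wm, D, hD⟩ := hg j
      exact ⟨wm.comp h4.measurable, D, fun x => hD _⟩
  have h11 : Cvg (μ.map φ) R g :=
    (Cvg_factor (h1.mp.prod h2.mp) hR h4 h5 fun j => (hg j).1).1 h10
  have h12 : Cvg μ T (fun j => g j ∘ φ) := (Cvg_factor hT hR hmφ hφT fun j => (hg j).1).2 h11
  have h13 : f = fun j => g j ∘ φ := funext hfg
  rw [h13]
  exact h12

/-- the trivial base -/
theorem bot_conv {X : Type} {mX : MeasurableSpace X} (μ : Measure X) (T : X → X) : Conv μ T ⊥ := by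
  intro f hf _
  refine Eventually.of_forall fun x => ⟨f 0 x * f 1 x * f 2 x, ?_⟩
  have h : ∀ (j : Fin 3) (y : X), f j y = f j x := by
    intro j y
    have h1 : MeasurableSet[⊥] (f j ⁻¹' {f j x}) := hf j (measurableSet_singleton _)
    rcases MeasurableSpace.measurableSet_bot_iff.1 h1 with h2 | h2
    · have h3 : x ∈ f j ⁻¹' {f j x} := rfl
      rw [h2] at h3
      exact h3.elim
    · have h3 : y ∈ f j ⁻¹' {f j x} := by
        rw [h2]
        trivial
      exact h3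
  refine tendsto_const_nhds.congr' ?_
  filter_upwards [eventually_gt_atTop 0] with N hN
  have hN' : (N : ℂ) ≠ 0 := by exact_mod_cast hN.ne'
  unfold avg
  rw [Finset.sum_congr rfl fun n _ => by rw [h 0, h 1, h 2], Finset.sum_const, Nat.card_Icc, Nat.add_sub_cancel,
    nsmul_eq_mul]
  field_simp

/-- tame systems -/
theorem tame_conv {X : Type} [mX : MeasurableSpace X] (μ : Measure X) [IsProbabilityMeasure μ] (T : X → X)
    (hT : MeasurePreserving T μ μ) (h : Tame μ T) : CvM μ T 3 mX := by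
  rw [← conv_iff]
  rcases h with hd | ⟨Z, mZ, φ, hφ, hd⟩
  · exact (tower μ T hT _ _ bot_le (bot_conv μ T) hd).2
  · exact (tower μ T hT _ _ (measurable_iff_comap_le.1 hφ.1) (gp_conv μ T hT φ hφ) hd).2

end proof

/-- **Theorem.** Let `T` be a measure preserving map of a probability space `(X, μ)`. (1) If the cubic averages converge
almost everywhere for the bounded functions measurable with respect to `𝓐`, then also for those measurable with
respect to every σ-algebra `𝓑` which is obtained from `𝓐` by a mixed tower. (2) If `μ` is an integral of probabilities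
`κ ω` such that for almost every `ω` some power `T^k` preserves `κ ω` and the system `(X, κ ω, T^k)` is tame, then the
cubic averages of `T` converge `μ`-almost everywhere for all `f₀, f₁, f₂ ∈ L^∞(μ)`. -/
theorem result :
    (∀ (X : Type) [mX : MeasurableSpace X] (μ : Measure X) [IsProbabilityMeasure μ] (T : X → X)
      (_ : MeasurePreserving T μ μ) (𝓐 𝓑 : MeasurableSpace X), 𝓐 ≤ mX → Conv μ T 𝓐 → Tower μ T 𝓐 𝓑 →
      Conv μ T 𝓑) ∧
    (∀ (X Ω : Type) [MeasurableSpace X] [MeasurableSpace Ω] (μ : Measure X) [IsProbabilityMeasure μ]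
      (T : X → X) (_ : MeasurePreserving T μ μ) (P : Measure Ω) (κ : Kernel Ω X), μ = P.bind κ →
      (∀ᵐ ω ∂P, IsProbabilityMeasure (κ ω) ∧
        ∃ k : ℕ, 0 < k ∧ MeasurePreserving T^[k] (κ ω) (κ ω) ∧ Tame (κ ω) T^[k]) →
      ∀ f : Fin 3 → X → ℂ, (∀ j, MemLp (f j) ∞ μ) →
        ∀ᵐ x ∂μ, ∃ L, Tendsto (fun N => avg T f N x) atTop (𝓝 L)) := by
  refine ⟨fun X mX μ _ T hT 𝓐 𝓑 hA hc hd => (tower μ T hT 𝓐 𝓑 hA hc hd).2, ?_⟩
  intro X Ω _ _ μ _ T hT P κ hμ hκ f hf
  choose g hg hfg using fun j => Pool.Agent.W761.Gauss.BM_of_memLp (hf j)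
  have h1 : Pool.Agent.W761.Tail.Cvg μ T g := by
    refine Pool.Agent.H4K.bind_step hμ hT.measurable (fun j => (hg j).1) ?_
    filter_upwards [hκ] with ω hω
    obtain ⟨hp, k, hk, hTk, ht⟩ := hω
    exact Pool.Agent.H4K.root_step hT.measurable hk (tame_conv (κ ω) T^[k] hTk ht) g (fun j => (hg j).1)
      fun j => (hg j).2
  rw [← cvg_iff]
  exact Pool.Agent.W761.Tail.Cvg_congr hT (fun j => (hfg j).symm) h1

end Pool.Agent.Results.MP_9721b5_an.MixedTowers
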